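import Pool.Agent.MNU.StmtsU
import Pool.Agent.Helper27_UBT.Asm
import Pool.Agent.Helper58_UB.Loc

/-!
# MNU, row PRP: torsion at a prime where all differences of the roots have the same absolute value
-/

set_option autoImplicit false

namespace Pool.Agent.MNU.H34

open Polynomial NumberField IsDedekindDomain
open _root_.H58Q _root_.UBT

/-- the row PRP -/
theorem prp : PrpStmt := by
  classical
  intro g hg K _ _ Cv e θ hC p hp hp2 hv c hc
  -- preparations
  have hCne : Cv.f ≠ 0 := by
    intro h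
    have := Cv.odd
    rw [h, natDegree_zero] at this
    exact absurd this (by decide)
  have he : e ≠ 0 := by
    rintro rfl
    apply hCne
    rw [hC, C_0, zero_mul]
  set f : K[X] := ∏ j, (X - Polynomial.C (θ j)) with hf
  have hfmon : f.Monic := monic_prod_X_sub_C _ _
  have hfdeg : f.natDegree = 2 * g + 1 := by
    rw [hf, natDegree_finsetProd_X_sub_C_eq_card, Finset.card_univ, Fintype.card_fin]
  have hfsq : Squarefree f := by
    refine Cv.sqfree.squarefree_of_dvd ?_
    rw [hC]
    exact dvd_mul_left _ _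
  have hfsep : f.Separable := PerfectField.separable_iff_squarefree.2 hfsq
  have hθ : Function.Injective θ := by
    have h1 : f.Separable := hfsep
    rw [hf, separable_prod_X_sub_C_iff] at h1
    exact h1
  have hi0 : 0 < 2 * g + 1 := by omega
  have hi1 : 1 < 2 * g + 1 := by omega
  set i0 : Fin (2 * g + 1) := ⟨0, hi0⟩ with hi0'
  set i1 : Fin (2 * g + 1) := ⟨1, hi1⟩ with hi1'
  have hi : i1 ≠ i0 := by
    intro h
    have := congrArg Fin.val h
    exact absurd this (by simp [hi0', hi1'])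
  set u₀ : K := θ i1 - θ i0 with hu₀
  have hu₀0 : u₀ ≠ 0 := sub_ne_zero.2 fun h => hi (hθ h)
  -- the square root
  obtain ⟨E, _, _, _, s, hs, hdeg₂⟩ := ext2 K (e * u₀ ^ (2 * g + 1))
  set fE := f.map (algebraMap K E) with hfE
  have hfEmon : fE.Monic := hfmon.map _
  have hfEprod : fE = ∏ j, (X - Polynomial.C (algebraMap K E (θ j))) := by
    rw [hfE, hf, Polynomial.map_prod]
    refine Finset.prod_congr rfl fun j _ => ?_
    rw [Polynomial.map_sub, map_X, map_C]
  have hfEroots : fE.roots = (Finset.univ : Finset (Fin (2 * g + 1))).val.map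
      (fun j => algebraMap K E (θ j)) := by
    rw [hfEprod, Finset.prod_eq_multiset_prod]
    have := roots_multiset_prod_X_sub_C
      ((Finset.univ : Finset (Fin (2 * g + 1))).val.map (fun j => algebraMap K E (θ j)))
    rw [Multiset.map_map] at this
    exact this
  have hfEdeg : fE.natDegree = 2 * g + 1 := by rw [hfE, hfmon.natDegree_map, hfdeg]
  have hfEspl : fE.Splits := by
    rw [splits_iff_card_roots, hfEroots, hfEdeg, Multiset.card_map]
    simp
  have hfEsep : fE.Separable := hfsep.map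
  have hfEnodup : fE.roots.Nodup := nodup_roots hfEsep
  set u : E := algebraMap K E u₀ with hu
  have hu0 : u ≠ 0 := by
    rw [hu, Ne, FaithfulSMul.algebraMap_eq_zero_iff]
    exact hu₀0
  set αE : E := algebraMap K E (θ i0) with hαE
  set eE : E := algebraMap K E e with heE
  have heE0 : eE ≠ 0 := by rw [heE, Ne, FaithfulSMul.algebraMap_eq_zero_iff]; exact he
  have hs' : s ^ 2 = eE * u ^ fE.natDegree := by
    rw [hs, map_mul, map_pow, hfEdeg]
  have hs0 : s ≠ 0 := by
    intro h
    rw [h] at hs'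
    have : eE * u ^ fE.natDegree ≠ 0 := mul_ne_zero heE0 (pow_ne_zero _ hu0)
    exact this (by rw [← hs']; ring)
  -- the good model
  set FE : E[X] := Cv.f.map (algebraMap K E) with hFE
  have hFE' : FE = Polynomial.C eE * fE := by
    rw [hFE, hC, Polynomial.map_mul, map_C]
  set G : E[X] := Polynomial.C ((s ^ 2)⁻¹) * FE.comp (Polynomial.C u * X + Polynomial.C αE) with hG
  have hGeq : G = ((fE.roots.map (fun a => (a - αE) / u)).map
      (fun b => X - Polynomial.C b)).prod := by
    rw [hG, hFE']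
    exact rescale_eq fE hfEmon hfEspl eE s u αE hu0 hs' heE0
  have hGroots : G.roots = fE.roots.map (fun a => (a - αE) / u) := by
    rw [hGeq]; exact roots_multiset_prod_X_sub_C _
  have hGmon : G.Monic := by
    rw [hGeq]; exact monic_multiset_prod_of_monic _ _ fun b _ => monic_X_sub_C b
  have hGdeg : G.natDegree = 2 * g + 1 := by
    rw [hGeq, natDegree_multiset_prod_X_sub_C_eq_card, Multiset.card_map,
      ← hfEspl.natDegree_eq_card_roots, hfEdeg]
  have hGspl : G.Splits := by
    rw [splits_iff_card_roots, hGroots, Multiset.card_map, ← hfEspl.natDegree_eq_card_roots,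
      hfEdeg, hGdeg]
  have hGnodup : G.roots.Nodup := by
    rw [hGroots]
    refine hfEnodup.map_on ?_
    intro a _ b _ h
    field_simp at h
    simpa using h
  have hGsep : G.Separable := (nodup_roots_iff_of_splits hGmon.ne_zero hGspl).mp hGnodup
  -- the primes
  have hpp : (Ideal.span {((p : ℕ) : ℤ)}).IsPrime :=
    (Ideal.span_singleton_prime (by exact_mod_cast hp.ne_zero)).2 (Nat.prime_iff_prime_int.1 hp)
  obtain ⟨⟨P, hPprime, hPv⟩⟩ := Ideal.nonempty_primesOver (S := 𝓞 E) (Ideal.span {((p : ℕ) : ℤ)})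
  have hpP : ((p : ℕ) : 𝓞 E) ∈ P := by
    have h1 : ((p : ℕ) : ℤ) ∈ P.under ℤ := by
      rw [← hPv.over]
      exact Ideal.mem_span_singleton_self _
    have h2 : algebraMap ℤ (𝓞 E) ((p : ℕ) : ℤ) ∈ P := h1
    rwa [map_natCast] at h2
  have hP0 : P ≠ ⊥ := by
    rintro rfl
    rw [Ideal.mem_bot, Nat.cast_eq_zero] at hpP
    exact hp.ne_zero hpP
  let w : HeightOneSpectrum (𝓞 E) := ⟨P, hPprime, hP0⟩
  have hpv : ((p : ℕ) : 𝓞 K) ∈ P.under (𝓞 K) := by
    change algebraMap (𝓞 K) (𝓞 E) ((p : ℕ) : 𝓞 K) ∈ P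
    rw [map_natCast]
    exact hpP
  have hv0 : P.under (𝓞 K) ≠ ⊥ := by
    intro h
    rw [h, Ideal.mem_bot, Nat.cast_eq_zero] at hpv
    exact hp.ne_zero hpv
  let v : HeightOneSpectrum (𝓞 K) := ⟨P.under (𝓞 K), inferInstance, hv0⟩
  have hw : w.asIdeal.LiesOver v.asIdeal := ⟨rfl⟩
  have hval0 : ∀ i j i' j', i ≠ j → i' ≠ j' →
      w.valuation E (algebraMap K E (θ i) - algebraMap K E (θ j)) =
        w.valuation E (algebraMap K E (θ i') - algebraMap K E (θ j')) := by
    intro i j i' j' h h'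
    rw [← map_sub, ← map_sub, ← HeightOneSpectrum.valuation_liesOver E v w,
      ← HeightOneSpectrum.valuation_liesOver E v w, hv v hpv i j i' j' h h']
  have hval : ∀ a b : E, a ∈ fE.roots → b ∈ fE.roots → a ≠ b →
      w.valuation E ((a - b) / u) = 1 := by
    intro a b ha hb hab
    rw [hfEroots] at ha hb
    obtain ⟨i, -, rfl⟩ := Multiset.mem_map.1 ha
    obtain ⟨j, -, rfl⟩ := Multiset.mem_map.1 hb
    have hij : i ≠ j := fun h => hab (by rw [h])
    have h1 := hval0 i j i1 i0 hij hi
    have hue : algebraMap K E (θ i1) - algebraMap K E (θ i0) = u := by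
      rw [hu, hu₀, map_sub]
    rw [map_div₀, h1, hue]
    refine div_self ?_
    rw [Ne, map_eq_zero]
    exact hu0
  have hαmem : αE ∈ fE.roots := by
    rw [hfEroots]
    have h0 : i0 ∈ (Finset.univ : Finset (Fin (2 * g + 1))) := Finset.mem_univ _
    exact Multiset.mem_map.2 ⟨i0, h0, rfl⟩
  have hint : ∀ a ∈ G.roots, w.valuation E a ≤ 1 := by
    intro a ha
    rw [hGroots] at ha
    obtain ⟨a', ha', rfl⟩ := Multiset.mem_map.mp ha
    by_cases h : a' = αE
    · rw [h, sub_self, zero_div, map_zero]; exact zero_le_one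
    · exact (hval a' αE ha' hαmem h).le
  have hdiff : ∀ a ∈ G.roots, ∀ b ∈ G.roots, a ≠ b → w.valuation E (a - b) = 1 := by
    intro a ha b hb hab
    rw [hGroots] at ha hb
    obtain ⟨a', ha', rfl⟩ := Multiset.mem_map.mp ha
    obtain ⟨b', hb', rfl⟩ := Multiset.mem_map.mp hb
    have h : a' ≠ b' := fun h => hab (by rw [h])
    have h2 : (a' - αE) / u - (b' - αE) / u = (a' - b') / u := by ring
    rw [h2]
    exact hval a' b' ha' hb' h
  -- the class groups
  have _ : Fact (Odd G.natDegree) := ⟨by rw [hGdeg]; exact ⟨g, rfl⟩⟩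
  have _ : Fact p.Prime := ⟨hp⟩
  have hdR : IsDedekindDomain (Q K Cv.f) := H58Q.ded K Cv.f two_ne_zero Cv.sqfree
  have hdS : IsDedekindDomain (Q E G) := H58Q.ded E G two_ne_zero hGsep.squarefree
  obtain ⟨iso⟩ := Pool.Agent.UBT51.iso E FE u s αE hu0 hs0
  let ψ : Q K Cv.f →+* Q E G := (iso : Q E FE →+* Q E G).comp (Q.map (algebraMap K E) Cv.f)
  have hψinj : Function.Injective ψ := by
    intro a b hab
    exact Q.map_injective _ _ (algebraMap K E).injective (iso.injective hab)
  have hψ : ∀ I : Ideal (Q K Cv.f), I ≠ ⊥ → (I.map ψ).IsPrincipal → I.IsPrincipal := by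
    intro I hI h
    refine H76UBT.bc1 K E (algebraMap K E) Cv.f Cv.odd I hI ?_
    have h1 : I.map ψ = (I.map (Q.map (algebraMap K E) Cv.f)).map (iso : Q E FE →+* Q E G) := by
      rw [Ideal.map_map]
    have h2 : I.map (Q.map (algebraMap K E) Cv.f) =
        (I.map ψ).map (iso.symm : Q E G →+* Q E FE) := by
      have hid : ((iso.symm : Q E G →+* Q E FE)).comp (iso : Q E FE →+* Q E G) =
          RingHom.id (Q E FE) := RingHom.ext fun x => iso.symm_apply_apply x
      rw [h1, Ideal.map_map, hid, Ideal.map_id]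
    rw [h2]
    obtain ⟨z, hz⟩ := h.principal
    refine ⟨⟨iso.symm z, ?_⟩⟩
    rw [hz, Ideal.submodule_span_eq, Ideal.map_span, Set.image_singleton, Ideal.submodule_span_eq]
    rfl
  obtain ⟨c', hc'⟩ := bc2 (Q K Cv.f) (Q E G) ψ hψinj hψ c
  have hc'fin : IsOfFinOrder c' := by
    rw [← orderOf_pos_iff, hc']
    exact hc.orderOf_pos
  obtain ⟨m, a, hma, hm1, hm⟩ := H9.glb H58Q.loc E w p (by omega) hpP G g hGmon hGdeg hGspl
    hGsep hint hdiff c' hc'fin
  refine ⟨m, a, by rw [← hc', hma], hm1, hm.trans ?_⟩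
  have hrank : Module.finrank ℚ E ≤ 2 * Module.finrank ℚ K := by
    have e1 : Module.finrank ℚ E = Module.finrank ℚ K * Module.finrank K E :=
      (Module.finrank_mul_finrank ℚ K E).symm
    rw [e1, mul_comm]
    exact Nat.mul_le_mul_right _ hdeg₂
  have hp1 : 1 ≤ p := hp.one_lt.le
  gcongr
  · norm_num

end Pool.Agent.MNU.H34
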